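import Mathlib

/-!
# Convex hulls of orbits of regions under the functional equations
-/

set_option autoImplicit false

open Finset

namespace Pool.Agent.X298.MD

/-- the space of the real parts `(s_1, …, s_k, w)` -/
abbrev Space (k : ℕ) := (Fin k → ℝ) × ℝ

/-- The functional equation for `J`: `s_j` becomes `1 - s_j` for `j ∈ J`, and `w` becomes `w + ∑_{j ∈ J} (s_j - 1/2)`. -/
noncomputable def refl {k : ℕ} (J : Finset (Fin k)) (x : Space k) : Space k :=
  (fun j => if j ∈ J then 1 - x.1 j else x.1 j, x.2 + ∑ j ∈ J, (x.1 j - 1 / 2))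

/-- the invariant `w + (1/2) ∑_j (s_j - 1/2)` -/
noncomputable def inv {k : ℕ} (x : Space k) : ℝ := x.2 + 1 / 2 * ∑ j, (x.1 j - 1 / 2)

/-- the point `(1/2, …, 1/2, w)` -/
noncomputable def centre (k : ℕ) (w : ℝ) : Space k := (fun _ => 1 / 2, w)

/-- the union of the images of the region under the functional equations -/
def orbit {k : ℕ} (Ω : Set (Space k)) : Set (Space k) := ⋃ J : Finset (Fin k), refl J '' Ω

/-- the region `Re w > a`, `Re s_j > b` -/
def region (k : ℕ) (a b : ℝ) : Set (Space k) := {x | a < x.2 ∧ ∀ j, b < x.1 j}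

variable {k : ℕ}

theorem inv_refl (J : Finset (Fin k)) (x : Space k) : inv (refl J x) = inv x := by
  classical
  unfold inv refl
  have h1 : ∑ j, ((if j ∈ J then 1 - x.1 j else x.1 j) - 1 / 2) =
      ∑ j, (x.1 j - 1 / 2) - 2 * ∑ j ∈ J, (x.1 j - 1 / 2) := by
    rw [← Finset.sum_filter_add_sum_filter_not univ (fun j => j ∈ J) (fun j => ((if j ∈ J then 1 - x.1 j else x.1 j) - 1 / 2)),
      ← Finset.sum_filter_add_sum_filter_not univ (fun j => j ∈ J) (fun j => (x.1 j - 1 / 2))]
    have e1 : (univ.filter fun j => j ∈ J) = J := by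
      ext j
      simp
    rw [e1]
    have e2 : ∑ j ∈ J, ((if j ∈ J then 1 - x.1 j else x.1 j) - 1 / 2) = - ∑ j ∈ J, (x.1 j - 1 / 2) := by
      rw [← Finset.sum_neg_distrib]
      refine Finset.sum_congr rfl fun j hj => ?_
      rw [if_pos hj]
      ring
    have e3 : ∑ j ∈ univ.filter (fun j => ¬ j ∈ J), ((if j ∈ J then 1 - x.1 j else x.1 j) - 1 / 2) =
        ∑ j ∈ univ.filter (fun j => ¬ j ∈ J), (x.1 j - 1 / 2) := by
      refine Finset.sum_congr rfl fun j hj => ?_
      rw [mem_filter] at hj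
      rw [if_neg hj.2]
    rw [e2, e3]
    ring
  show x.2 + ∑ j ∈ J, (x.1 j - 1 / 2) + 1 / 2 * ∑ j, ((if j ∈ J then 1 - x.1 j else x.1 j) - 1 / 2) = _
  rw [h1]
  ring

theorem inv_comb {a b : ℝ} (hab : a + b = 1) (x y : Space k) : inv (a • x + b • y) = a * inv x + b * inv y := by
  unfold inv
  have h1 : ∑ j, ((a • x + b • y).1 j - 1 / 2) = a * ∑ j, (x.1 j - 1 / 2) + b * ∑ j, (y.1 j - 1 / 2) := by
    rw [Finset.mul_sum, Finset.mul_sum, ← Finset.sum_add_distrib]
    refine Finset.sum_congr rfl fun j _ => ?_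
    have hb : b = 1 - a := by linarith
    simp only [Prod.fst_add, Prod.smul_fst, Pi.add_apply, Pi.smul_apply, smul_eq_mul, hb]
    ring
  rw [h1]
  simp only [Prod.snd_add, Prod.smul_snd, smul_eq_mul]
  ring

theorem inv_centre (w : ℝ) : inv (centre k w) = w := by
  unfold inv centre
  simp

theorem mid (x : Space k) : (1 / 2 : ℝ) • x + (1 / 2 : ℝ) • refl univ x = centre k (inv x) := by
  unfold refl centre inv
  refine Prod.ext ?_ ?_
  · funext j
    simp only [mem_univ, if_true, Prod.fst_add, Prod.smul_fst, Pi.add_apply, Pi.smul_apply, smul_eq_mul]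
    ring
  · simp only [Prod.snd_add, Prod.smul_snd, smul_eq_mul]
    ring

theorem refl_empty (x : Space k) : refl ∅ x = x := by
  unfold refl
  simp

theorem refl_comb (J : Finset (Fin k)) {a b : ℝ} (hab : a + b = 1) (x y : Space k) :
    refl J (a • x + b • y) = a • refl J x + b • refl J y := by
  have hb : b = 1 - a := by linarith
  unfold refl
  refine Prod.ext ?_ ?_
  · funext j
    simp only [Prod.fst_add, Prod.smul_fst, Pi.add_apply, Pi.smul_apply, smul_eq_mul]
    split_ifs
    · rw [hb]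
      ring
    · ring
  · simp only [Prod.snd_add, Prod.smul_snd, Prod.fst_add, Prod.smul_fst, Pi.add_apply, Pi.smul_apply, smul_eq_mul]
    have h1 : ∑ j ∈ J, (a * x.1 j + b * y.1 j - 1 / 2) =
        a * ∑ j ∈ J, (x.1 j - 1 / 2) + b * ∑ j ∈ J, (y.1 j - 1 / 2) := by
      rw [Finset.mul_sum, Finset.mul_sum, ← Finset.sum_add_distrib]
      refine Finset.sum_congr rfl fun j _ => ?_
      rw [hb]
      ring
    rw [h1]
    ring

/-- the image of the hull is in the hull of the orbit -/
theorem refl_hull (J : Finset (Fin k)) (Ω : Set (Space k)) {x : Space k} (hx : x ∈ convexHull ℝ Ω) :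
    refl J x ∈ convexHull ℝ (orbit Ω) := by
  have h1 : Convex ℝ {y : Space k | refl J y ∈ convexHull ℝ (orbit Ω)} := by
    intro y hy z hz a b ha hb hab
    show refl J (a • y + b • z) ∈ convexHull ℝ (orbit Ω)
    rw [refl_comb J hab]
    exact (convex_convexHull ℝ (orbit Ω)) hy hz ha hb hab
  have h2 : Ω ⊆ {y : Space k | refl J y ∈ convexHull ℝ (orbit Ω)} := fun y hy =>
    subset_convexHull ℝ _ (Set.mem_iUnion.2 ⟨J, y, hy, rfl⟩)
  exact convexHull_min h2 h1 hx

/-- **the points of the central line in the hull of the orbit** -/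
theorem main (Ω : Set (Space k)) (w : ℝ) :
    centre k w ∈ convexHull ℝ (orbit Ω) ↔ ∃ x ∈ convexHull ℝ Ω, inv x = w := by
  constructor
  · intro h
    have h1 : Convex ℝ {y : Space k | ∃ x ∈ convexHull ℝ Ω, inv x = inv y} := by
      rintro y ⟨x, hx, hxy⟩ z ⟨x', hx', hxz⟩ a b ha hb hab
      refine ⟨a • x + b • x', (convex_convexHull ℝ Ω) hx hx' ha hb hab, ?_⟩
      rw [inv_comb hab, inv_comb hab, hxy, hxz]
    have h2 : orbit Ω ⊆ {y : Space k | ∃ x ∈ convexHull ℝ Ω, inv x = inv y} := by
      intro y hy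
      obtain ⟨J, x, hx, rfl⟩ := Set.mem_iUnion.1 hy
      exact ⟨x, subset_convexHull ℝ _ hx, (inv_refl J x).symm⟩
    obtain ⟨x, hx, h3⟩ := convexHull_min h2 h1 h
    exact ⟨x, hx, h3.trans (inv_centre w)⟩
  · rintro ⟨x, hx, rfl⟩
    rw [← mid]
    refine (convex_convexHull ℝ (orbit Ω)) ?_ (refl_hull univ Ω hx) (by norm_num) (by norm_num) (by norm_num)
    have := refl_hull ∅ Ω hx
    rwa [refl_empty] at this

/-- the values of the invariant on a region -/
theorem inv_region (a b : ℝ) {x : Space k} (hx : x ∈ region k a b) : a + k * (b - 1 / 2) / 2 < inv x := by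
  unfold inv
  have h1 : ∑ _j : Fin k, (b - 1 / 2) ≤ ∑ j, (x.1 j - 1 / 2) :=
    Finset.sum_le_sum fun j _ => by linarith [hx.2 j]
  rw [Finset.sum_const, card_univ, Fintype.card_fin, nsmul_eq_mul] at h1
  linarith [hx.1]

theorem region_inv {a b w : ℝ} (h : a + k * (b - 1 / 2) / 2 < w) : ∃ x ∈ region k a b, inv x = w := by
  set δ : ℝ := w - (a + k * (b - 1 / 2) / 2) with hδ
  have hδ0 : 0 < δ := sub_pos.2 h
  have hk : (0 : ℝ) < k + 1 := by positivity
  refine ⟨(fun _ => b + δ / (k + 1), w - k * (b + δ / (k + 1) - 1 / 2) / 2), ⟨?_, fun j => ?_⟩, ?_⟩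
  · show a < w - k * (b + δ / (k + 1) - 1 / 2) / 2
    have h1 : (k : ℝ) * (δ / (k + 1)) ≤ δ := by
      rw [← mul_div_assoc, div_le_iff₀ hk]
      nlinarith
    have h2 : w = δ + (a + k * (b - 1 / 2) / 2) := by rw [hδ]; ring
    nlinarith
  · show b < b + δ / (k + 1)
    have : 0 < δ / (k + 1) := by positivity
    linarith
  · unfold inv
    show w - k * (b + δ / (k + 1) - 1 / 2) / 2 + 1 / 2 * ∑ _j : Fin k, (b + δ / (k + 1) - 1 / 2) = w
    rw [Finset.sum_const, card_univ, Fintype.card_fin, nsmul_eq_mul]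
    ring

/-- a union of regions -/
theorem main_regions {ι : Type} (a b : ι → ℝ) (w : ℝ) :
    centre k w ∈ convexHull ℝ (orbit (⋃ i, region k (a i) (b i))) ↔ ∃ i, a i + k * (b i - 1 / 2) / 2 < w := by
  rw [main]
  constructor
  · rintro ⟨x, hx, rfl⟩
    have h1 : Convex ℝ {y : Space k | ∃ i, a i + k * (b i - 1 / 2) / 2 < inv y} := by
      rintro y ⟨i, hi⟩ z ⟨j, hj⟩ s t hs ht hst
      show ∃ i, a i + k * (b i - 1 / 2) / 2 < inv (s • y + t • z)
      rw [inv_comb hst]
      rcases le_total (inv y) (inv z) with h | h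
      · have h3 : inv y = s * inv y + t * inv y := by rw [← add_mul, hst, one_mul]
        exact ⟨i, by linarith [mul_le_mul_of_nonneg_left h ht]⟩
      · have h3 : inv z = s * inv z + t * inv z := by rw [← add_mul, hst, one_mul]
        exact ⟨j, by linarith [mul_le_mul_of_nonneg_left h hs]⟩
    have h2 : (⋃ i, region k (a i) (b i)) ⊆ {y : Space k | ∃ i, a i + k * (b i - 1 / 2) / 2 < inv y} := by
      intro y hy
      obtain ⟨i, hi⟩ := Set.mem_iUnion.1 hy
      exact ⟨i, inv_region _ _ hi⟩
    exact convexHull_min h2 h1 hx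
  · rintro ⟨i, hi⟩
    obtain ⟨x, hx, h1⟩ := region_inv hi
    exact ⟨x, subset_convexHull ℝ _ (Set.mem_iUnion.2 ⟨i, hx⟩), h1⟩

/-- the criterion in terms of the two sides of the hyperplane `inv = w` -/
theorem main_sides (Ω : Set (Space k)) (w : ℝ) :
    centre k w ∈ convexHull ℝ (orbit Ω) ↔ (∃ x ∈ Ω, inv x ≤ w) ∧ ∃ x ∈ Ω, w ≤ inv x := by
  rw [main]
  constructor
  · rintro ⟨x, hx, rfl⟩
    constructor
    · by_contra h0
      push Not at h0
      have h1 : Convex ℝ {y : Space k | inv x < inv y} := by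
        intro y hy z hz a b ha hb hab
        show inv x < inv (a • y + b • z)
        rw [inv_comb hab]
        have hy' : inv x < inv y := hy
        have hz' : inv x < inv z := hz
        have h3 : inv x = a * inv x + b * inv x := by rw [← add_mul, hab, one_mul]
        rcases eq_or_lt_of_le ha with h4 | h4
        · have hb1 : b = 1 := by linarith
          rw [← h4, hb1]
          linarith
        · have h5 := mul_lt_mul_of_pos_left hy' h4
          have h6 := mul_le_mul_of_nonneg_left hz'.le hb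
          linarith
      have h9 : inv x < inv x := convexHull_min (fun y hy => h0 y hy) h1 hx
      exact lt_irrefl _ h9
    · by_contra h0
      push Not at h0
      have h1 : Convex ℝ {y : Space k | inv y < inv x} := by
        intro y hy z hz a b ha hb hab
        show inv (a • y + b • z) < inv x
        rw [inv_comb hab]
        have hy' : inv y < inv x := hy
        have hz' : inv z < inv x := hz
        have h3 : inv x = a * inv x + b * inv x := by rw [← add_mul, hab, one_mul]
        rcases eq_or_lt_of_le ha with h4 | h4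
        · have hb1 : b = 1 := by linarith
          rw [← h4, hb1]
          linarith
        · have h5 := mul_lt_mul_of_pos_left hy' h4
          have h6 := mul_le_mul_of_nonneg_left hz'.le hb
          linarith
      have h9 : inv x < inv x := convexHull_min (fun y hy => h0 y hy) h1 hx
      exact lt_irrefl _ h9
  · rintro ⟨⟨x, hx, hxw⟩, y, hy, hyw⟩
    rcases eq_or_lt_of_le (hxw.trans hyw) with h | h
    · exact ⟨x, subset_convexHull ℝ _ hx, le_antisymm hxw (hyw.trans h.ge)⟩
    · have hd : 0 < inv y - inv x := sub_pos.2 h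
      have hab : (inv y - w) / (inv y - inv x) + (w - inv x) / (inv y - inv x) = 1 := by
        rw [← add_div]
        rw [div_eq_one_iff_eq hd.ne']
        ring
      refine ⟨((inv y - w) / (inv y - inv x)) • x + ((w - inv x) / (inv y - inv x)) • y,
        (convex_convexHull ℝ Ω) (subset_convexHull ℝ _ hx) (subset_convexHull ℝ _ hy)
          (div_nonneg (by linarith) hd.le) (div_nonneg (by linarith) hd.le) hab, ?_⟩
      rw [inv_comb hab]
      field_simp
      ring

/-- a property of regions which passes to the hull of the orbit -/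
theorem main_pred (E : Set (Space k) → Prop) (hE : ∀ Ω, E Ω → E (convexHull ℝ (orbit Ω))) (w : ℝ) :
    (∃ Ω, E Ω ∧ centre k w ∈ Ω) ↔ ∃ Ω, E Ω ∧ (∃ x ∈ Ω, inv x ≤ w) ∧ ∃ x ∈ Ω, w ≤ inv x := by
  constructor
  · rintro ⟨Ω, h1, h2⟩
    exact ⟨Ω, h1, ⟨_, h2, (inv_centre w).le⟩, _, h2, (inv_centre w).ge⟩
  · rintro ⟨Ω, h1, h2⟩
    exact ⟨_, hE Ω h1, (main_sides Ω w).2 h2⟩

theorem known_region : centre k 1 ∈ convexHull ℝ (orbit (region k (1 / 2) (5 / 4))) ↔ k ≤ 1 := by
  have h := main_regions (k := k) (fun _ : Unit => (1 / 2 : ℝ)) (fun _ => 5 / 4) 1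
  simp only [Set.iUnion_const, exists_const] at h
  rw [h]
  constructor
  · intro h1
    have h2 : (k : ℝ) < 2 := by linarith
    have : k < 2 := by exact_mod_cast h2
    omega
  · intro h1
    have : (k : ℝ) ≤ 1 := by exact_mod_cast h1
    linarith

end Pool.Agent.X298.MD
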